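import Pool.Agent.Ppr4.Defs

/-!
# Fifth version: definitions

As in the fourth version, but the factors are linear. `F0 V r1 r2 d z`: the inner form, `r1`, `r2`
are reference words with the image letters `e1`, `e2`. `itF V A r1 r2 d i`: the inner form after
`i` steps, the factor of the step `i` at the word `v` is `V (A shifted i times) + V v`. `GG`: the
form. `NN ψ d z`: the value of the inner form, `0` or `4 e1 e2`. `UU W i`: the product of the
`2 W t` for `t < i`.
-/

namespace Pool.Agent.Ppr5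

open PowerSeries Pool.Agent.Ppr Pool.Agent.Ppr2 Pool.Agent.Ppr4

section generic

variable {R : Type} [CommRing R]

/-- the inner form -/
def F0 (V : (ℕ → Bool) → R) (r1 r2 : ℕ → Bool) (d : Dat) (z : ℕ → Bool) : R :=
  (V r1 + V (app d.s1 z)) * (V r2 + V (app d.s2 z))

/-- the inner form after `i` steps -/
def itF (V : (ℕ → Bool) → R) (A r1 r2 : ℕ → Bool) (d : Dat) : ℕ → (ℕ → Bool) → R
  | 0 => F0 V r1 r2 d
  | i + 1 => stp (fun v => V (sh^[i] A) + V v) (itF V A r1 r2 d i)

/-- the form -/
def GG (V : (ℕ → Bool) → R) (A r1 r2 : ℕ → Bool) (d : Dat) (K : ℕ) (u u' : ℕ → Bool) : R :=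
  (itF V A r1 r2 d K (cons true u) + itF V A r1 r2 d K (cons false u)) -
    (itF V A r1 r2 d K (cons true u') + itF V A r1 r2 d K (cons false u'))

/-- the common unit -/
def UU (W : ℕ → R) (i : ℕ) : R := ∏ t ∈ Finset.range i, (2 * W t)

end generic

/-- the loss of order after `i` steps -/
def al (i : ℕ) : ℕ := ∑ t ∈ Finset.range i, (2 ^ (t + 1) - 1)

variable {m : ℕ} (ψ : (Fin m → Bool) → Bool)

/-- the value of the inner form -/
noncomputable def NN (d : Dat) (z : ℕ → Bool) : ℝ :=
  ((sg d.e1 : ℝ) + (sg (img ψ (app d.s1 z) 0) : ℝ)) *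
    ((sg d.e2 : ℝ) + (sg (img ψ (app d.s2 z) 0) : ℝ))

end Pool.Agent.Ppr5
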