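import Pool.Agent.Ppr5.Defs
import Pool.Agent.Ppr2.NrmC
import Pool.Agent.Ppr.BndB

/-!
# The difference of the values of two words with a common prefix

`(YR a + YR b) (YR a - YR b) = 4 X (YR (sh a) - YR (sh b))`, and the first factor is close to `± 2`
if the first letters are equal.
-/

namespace Pool.Agent.Ppr5

open PowerSeries Pool.Agent.Ppr Pool.Agent.Ppr2 Pool.Agent.Ppr4

theorem YR_close {r : ℝ} (hr : 0 ≤ r) (hr2 : r ≤ 1 / 64) (M : ℕ) (v : ℕ → Bool) :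
    nrmr r M (YR v - C ((sg (v 0) : ℤ) : ℝ)) ≤ 1 / 30 :=
  (nrmr_le_nrm hr hr2 M _).trans (nrm_YR_sub M v)

theorem YR_bd {r : ℝ} (hr : 0 ≤ r) (hr2 : r ≤ 1 / 64) (M : ℕ) (v : ℕ → Bool) :
    nrmr r M (YR v) ≤ 31 / 30 :=
  (nrmr_le_nrm hr hr2 M _).trans (nrm_YR_le M v)

theorem abs_sg_Dif (b : Bool) : |((sg b : ℤ) : ℝ)| = 1 := by
  cases b <;> simp [sg]

/-- a sum of two values with the same first letter has an inverse -/
theorem add_inv {r : ℝ} (hr : 0 ≤ r) (hr2 : r ≤ 1 / 64) {M : ℕ} (hM : 0 < M)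
    (a b : ℕ → Bool) (h : a 0 = b 0) :
    ∃ g, (YR a + YR b) * g = 1 ∧ nrmr r M g ≤ 15 / 29 := by
  have h1 : nrmr r M ((YR a + YR b) - C (2 * ((sg (a 0) : ℤ) : ℝ))) ≤ 1 / 15 := by
    have e1 : (YR a + YR b) - C (2 * ((sg (a 0) : ℤ) : ℝ)) =
        (YR a - C ((sg (a 0) : ℤ) : ℝ)) + (YR b - C ((sg (b 0) : ℤ) : ℝ)) := by
      rw [← h, two_mul, map_add]
      ring
    rw [e1]
    have h2 := nrmr_add_le hr M (YR a - C ((sg (a 0) : ℤ) : ℝ)) (YR b - C ((sg (b 0) : ℤ) : ℝ))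
    have h3 := YR_close hr hr2 M a
    have h4 := YR_close hr hr2 M b
    linarith
  have h2 : |2 * ((sg (a 0) : ℤ) : ℝ)| = 2 := by
    rw [abs_mul, abs_sg_Dif]
    norm_num
  have h3 : constantCoeff (YR a + YR b) ≠ 0 :=
    constr_ne_zero hr hM h1 (by rw [h2]; norm_num)
  obtain ⟨g, hg⟩ := exists_inv h3
  refine ⟨g, hg, (nrmr_inv_le hr h1 (by rw [h2]; norm_num) hg).trans ?_⟩
  rw [h2]
  norm_num

theorem YR_dif {r : ℝ} (hr : 0 ≤ r) (hr2 : r ≤ 1 / 64) {M : ℕ} (hM : 0 < M) (k : ℕ) :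
    ∀ a b : ℕ → Bool, (∀ j < k, a j = b j) →
      nrmr r M (YR a - YR b) ≤ 31 / 15 * (3 * r) ^ k := by
  induction k with
  | zero =>
    intro a b _
    have h1 := nrmr_sub_le hr M (YR a) (YR b)
    have h2 := YR_bd hr hr2 M a
    have h3 := YR_bd hr hr2 M b
    rw [pow_zero]
    linarith
  | succ k ih =>
    intro a b hab
    obtain ⟨g, hg, hgn⟩ := add_inv hr hr2 hM a b (hab 0 (Nat.succ_pos k))
    have h1 := ih (sh a) (sh b) fun j hj => hab (j + 1) (Nat.succ_lt_succ hj)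
    have h2 : YR a - YR b = C 4 * (X ^ 1 * (g * (YR (sh a) - YR (sh b)))) := by
      have e1 : (YR a + YR b) * (YR a - YR b) = 4 * X * (YR (sh a) - YR (sh b)) := by
        have e2 := YR_sq a
        have e3 := YR_sq b
        linear_combination e2 - e3
      have e4 : (C (4 : ℝ) : PowerSeries ℝ) = 4 := map_ofNat (C : ℝ →+* PowerSeries ℝ) 4
      calc YR a - YR b = ((YR a + YR b) * g) * (YR a - YR b) := by rw [hg, one_mul]
        _ = g * ((YR a + YR b) * (YR a - YR b)) := by ring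
        _ = _ := by rw [e1, e4]; ring
    have h0 : 0 ≤ nrmr r M (YR (sh a) - YR (sh b)) := nrmr_nonneg hr M _
    have h3 : nrmr r M (YR a - YR b) ≤ 4 * (r ^ 1 * (15 / 29 *
        nrmr r M (YR (sh a) - YR (sh b)))) := by
      rw [h2, nrmr_C_mul, abs_of_pos (by norm_num : (0 : ℝ) < 4)]
      refine mul_le_mul_of_nonneg_left ?_ (by norm_num)
      refine (nrmr_mul_le hr M _ _).trans ?_
      refine mul_le_mul (nrmr_X_pow_le hr M 1) ?_ (nrmr_nonneg hr M _) (by positivity)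
      exact (nrmr_mul_le hr M _ _).trans (mul_le_mul_of_nonneg_right hgn h0)
    have h4 : nrmr r M (YR a - YR b) ≤ 3 * r * nrmr r M (YR (sh a) - YR (sh b)) := by
      refine h3.trans ?_
      have h5 : 0 ≤ r * nrmr r M (YR (sh a) - YR (sh b)) := mul_nonneg hr h0
      nlinarith
    calc nrmr r M (YR a - YR b) ≤ 3 * r * nrmr r M (YR (sh a) - YR (sh b)) := h4
      _ ≤ 3 * r * (31 / 15 * (3 * r) ^ k) := mul_le_mul_of_nonneg_left h1 (by positivity)
      _ = 31 / 15 * (3 * r) ^ (k + 1) := by rw [pow_succ]; ring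

end Pool.Agent.Ppr5
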