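import Pool.Agent.Ppr5.Defs

/-!
# Ring homomorphisms and congruences
-/

namespace Pool.Agent.Ppr5

open PowerSeries Pool.Agent.Ppr Pool.Agent.Ppr2 Pool.Agent.Ppr4

variable {R S : Type} [CommRing R] [CommRing S]

theorem itF_map (f : R →+* S) (V : (ℕ → Bool) → R) (A r1 r2 : ℕ → Bool) (d : Dat) (i : ℕ)
    (z : ℕ → Bool) :
    f (itF V A r1 r2 d i z) = itF (fun v => f (V v)) A r1 r2 d i z := by
  induction i generalizing z with
  | zero => simp only [itF, F0, map_mul, map_add]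
  | succ i ih => simp only [itF, stp, map_add, map_mul, ih]

theorem GG_map (f : R →+* S) (V : (ℕ → Bool) → R) (A r1 r2 : ℕ → Bool) (d : Dat) (K : ℕ)
    (u u' : ℕ → Bool) :
    f (GG V A r1 r2 d K u u') = GG (fun v => f (V v)) A r1 r2 d K u u' := by
  simp only [GG, map_sub, map_add, itF_map]

theorem GG_congr (a : PowerSeries ℝ) {V V' : (ℕ → Bool) → PowerSeries ℝ}
    (h : ∀ v, a ∣ V v - V' v) (A r1 r2 : ℕ → Bool) (d : Dat) (K : ℕ) (u u' : ℕ → Bool) :
    a ∣ GG V A r1 r2 d K u u' - GG V' A r1 r2 d K u u' := by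
  rw [← Ideal.mem_span_singleton, ← Ideal.Quotient.eq, GG_map, GG_map]
  have h1 : (fun v => Ideal.Quotient.mk (Ideal.span {a}) (V v)) =
      fun v => Ideal.Quotient.mk (Ideal.span {a}) (V' v) := by
    funext v
    rw [Ideal.Quotient.eq, Ideal.mem_span_singleton]
    exact h v
  rw [h1]

end Pool.Agent.Ppr5
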