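import Pool.Agent.Ppr5.Defs

/-!
# The form is homogeneous
-/

namespace Pool.Agent.Ppr5

open Pool.Agent.Ppr Pool.Agent.Ppr2 Pool.Agent.Ppr4

variable {ι : Type}

private theorem Hom_lin (pt : (ℕ → Bool) → ι) (a v : ℕ → Bool) :
    ((MvPolynomial.X (pt a) : MvPolynomial ι ℝ) + MvPolynomial.X (pt v)).IsHomogeneous 1 :=
  (MvPolynomial.isHomogeneous_X _ _).add (MvPolynomial.isHomogeneous_X _ _)

theorem itF_hom (pt : (ℕ → Bool) → ι) (A r1 r2 : ℕ → Bool) (d : Dat) (i : ℕ) (z : ℕ → Bool) :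
    (itF (fun v => (MvPolynomial.X (pt v) : MvPolynomial ι ℝ)) A r1 r2 d i z).IsHomogeneous
      (2 + i) := by
  induction i generalizing z with
  | zero => exact (Hom_lin pt _ _).mul (Hom_lin pt _ _)
  | succ i ih =>
    have h : 1 + (2 + i) = 2 + (i + 1) := by omega
    have h1 := ((Hom_lin pt (sh^[i] A) (cons true z)).mul (ih (cons true z))).add
      ((Hom_lin pt (sh^[i] A) (cons false z)).mul (ih (cons false z)))
    rw [h] at h1
    exact h1

theorem GG_hom (pt : (ℕ → Bool) → ι) (A r1 r2 : ℕ → Bool) (d : Dat) (K : ℕ)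
    (u u' : ℕ → Bool) :
    (GG (fun v => (MvPolynomial.X (pt v) : MvPolynomial ι ℝ)) A r1 r2 d K u u').IsHomogeneous
      (2 + K) :=
  ((itF_hom pt A r1 r2 d K _).add (itF_hom pt A r1 r2 d K _)).sub
    ((itF_hom pt A r1 r2 d K _).add (itF_hom pt A r1 r2 d K _))

end Pool.Agent.Ppr5
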