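import Pool.Agent.Ppr4.NumE
import Pool.Agent.Ppr2.OntoA

/-!
# The choice of the parameters

The proof is that of `num_main4` with the cost `2 + K` instead of `2 + K (2 ns + 1)`: let
`x = log s`, `l = log x`; `M = ⌊x / 4000⌋`, `K = Nat.clog 2 M`, the cost is `≤ 3 l`.
-/

namespace Pool.Agent.Ppr5

open Pool.Agent.Ppr Pool.Agent.Ppr2 Pool.Agent.Ppr4

/-- the radius -/
noncomputable def r5 : ℝ := 1 / 300

theorem num_cost5 {x : ℝ} (hx : 8 ≤ Real.log x) {M : ℕ} (hM : (M : ℝ) ≤ x)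
    (hM1 : 2 ≤ M) : ((2 + Nat.clog 2 M : ℕ) : ℝ) ≤ 3 * Real.log x := by
  have hx2 : (2 : ℝ) ≤ x := le_trans (by exact_mod_cast hM1) hM
  have h1 : 2 ^ (Nat.clog 2 M - 1) < M :=
    Nat.pow_pred_clog_lt_self (by norm_num) (by omega)
  have h2 : (1 : ℕ) ≤ Nat.clog 2 M := Nat.clog_pos (by norm_num) hM1
  have h3 : ((2 : ℝ) ^ (Nat.clog 2 M - 1)) ≤ x := by
    have h4 : ((2 ^ (Nat.clog 2 M - 1) : ℕ) : ℝ) < (M : ℝ) := by exact_mod_cast h1
    push_cast at h4
    exact h4.le.trans hM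
  have h5 : Real.log ((2 : ℝ) ^ (Nat.clog 2 M - 1)) ≤ Real.log x :=
    Real.log_le_log (by positivity) h3
  rw [Real.log_pow] at h5
  have h6 : ((Nat.clog 2 M - 1 : ℕ) : ℝ) = (Nat.clog 2 M : ℝ) - 1 := by
    rw [Nat.cast_sub h2]
    norm_num
  rw [h6] at h5
  have hlog2 : (2 : ℝ) / 3 ≤ Real.log 2 := by
    have := Real.log_two_gt_d9
    linarith
  have h7 : (0 : ℝ) ≤ (Nat.clog 2 M : ℝ) - 1 := by
    have : (1 : ℝ) ≤ Nat.clog 2 M := by exact_mod_cast h2
    linarith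
  have h8 : ((Nat.clog 2 M : ℝ) - 1) * (2 / 3) ≤ Real.log x :=
    (mul_le_mul_of_nonneg_left hlog2 h7).trans h5
  push_cast
  linarith

theorem num_main5 : ∃ C : ℝ, 0 < C ∧ ∃ s0 : ℕ, ∀ (s N : ℕ) (H : ℝ),
    s0 ≤ s → s * Real.log s - 2 * s ≤ H →
    C * (s * (1 + Real.log (Real.log s))) < N →
    (N : ℝ) ^ 2 ≤ 4 * ((s : ℝ) + 1) * En N H →
    ∃ M K : ℕ, 240 ≤ M ∧ M ≤ 2 ^ K ∧ 3 * M ≤ Nat.clog 2 N ∧
      40 * En N H < ((N : ℝ) / 2 ^ (3 * M)) ^ 2 ∧
      5200 * s * En N H / (N : ℝ) ^ 2 / etar r5 ^ 2 * (2 + K : ℕ) ≤ M / 12 ∧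
      8 * (5200 * s * En N H / (N : ℝ) ^ 2) ≤ 2 ^ M ∧
      ((M / 3 : ℕ) : ℝ) * (H + Real.log 2 + Real.log 5) +
        ((M * s + 1 : ℕ) : ℝ) / 2 * Real.log ((M * s + 1 : ℕ) : ℝ) +
        ((M * s : ℕ) : ℝ) * (M * Real.log 67) <
      M * (1 - 1 / 20 - 12 * En N H / (N : ℝ) ^ 2) * H := by
  obtain ⟨η, hη⟩ : ∃ η : ℝ, η = etar r5 ^ 2 := ⟨_, rfl⟩
  have hη0 : 0 < η := by
    rw [hη, etar, r5]
    positivity
  have hη1 : η ≤ 1 := by
    rw [hη, etar, r5]
    norm_num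
  obtain ⟨C, hC⟩ : ∃ C : ℝ, C = 12 * 8000 * 26000 * 3 / η := ⟨_, rfl⟩
  have hCη : C * η = 12 * 8000 * 26000 * 3 := by
    rw [hC, div_mul_cancel₀ _ hη0.ne']
  have hC0 : 0 < C := by
    rw [hC]
    positivity
  have hC1 : 1 ≤ C := by
    by_contra hcon
    rw [not_le] at hcon
    have h1 : C * η ≤ 1 * 1 := mul_le_mul hcon.le hη1 hη0.le zero_le_one
    rw [hCη] at h1
    norm_num at h1
  refine ⟨C, hC0, ⌈Real.exp (10 ^ 10)⌉₊, ?_⟩
  intro s N H hs0 hH hCN hsq
  have hs1 : Real.exp (10 ^ 10) ≤ s := (Nat.le_ceil _).trans (by exact_mod_cast hs0)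
  have hs0' : (0 : ℝ) < s := lt_of_lt_of_le (Real.exp_pos _) hs1
  have hx10 : (10 : ℝ) ^ 10 ≤ Real.log s := (Real.le_log_iff_exp_le hs0').2 hs1
  set x : ℝ := Real.log s with hx
  have hx1 : (10000000000 : ℝ) ≤ x := by
    have : ((10 : ℝ) ^ 10) = 10000000000 := by norm_num
    linarith
  have hx0 : (10 : ℝ) ^ 8 ≤ x := by
    have : ((10 : ℝ) ^ 8) = 100000000 := by norm_num
    linarith
  have hxpos : 0 < x := by linarith
  have hexpx : Real.exp x = s := Real.exp_log hs0'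
  set l : ℝ := Real.log x with hl
  have he8 : Real.exp 8 ≤ 6561 := by
    have h1 : Real.exp 8 = Real.exp 1 ^ 8 := by
      rw [← Real.exp_nat_mul]
      norm_num
    have h2 : Real.exp 1 ≤ 3 := by
      have := Real.exp_one_lt_d9
      linarith
    rw [h1]
    calc Real.exp 1 ^ 8 ≤ 3 ^ 8 := pow_le_pow_left₀ (Real.exp_pos _).le h2 8
      _ = 6561 := by norm_num
  have hl8 : 8 ≤ l := by
    rw [hl, Real.le_log_iff_exp_le hxpos]
    linarith
  set y : ℝ := Real.exp (l / 4) with hy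
  have hy0 : 0 < y := Real.exp_pos _
  have hyx : y ^ 4 = x := by
    rw [hy, ← Real.exp_nat_mul]
    have : ((4 : ℕ) : ℝ) * (l / 4) = l := by push_cast; ring
    rw [this, hl, Real.exp_log hxpos]
  have hy1 : 100 ≤ y := by
    by_contra hcon
    rw [not_le] at hcon
    have h1 : y ^ 4 < 100 ^ 4 := pow_lt_pow_left₀ hcon hy0.le (by norm_num)
    rw [hyx] at h1
    norm_num at h1
    linarith
  have hly : l ≤ 4 * y := by
    have h1 : l / 4 + 1 ≤ y := Real.add_one_le_exp _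
    linarith
  have hsx : x ^ 2 / 2 ≤ s := by
    rw [← hexpx]
    have := Real.quadratic_le_exp_of_nonneg hxpos.le
    linarith
  have hsx' : 50000000 * x ≤ s := by nlinarith
  -- `N`
  have hNlow : C * l * s < N := by
    have h1 : C * (s * (1 + l)) = C * l * s + C * s := by ring
    have h2 : 0 < C * s := by positivity
    linarith
  have hClk : 1 ≤ C * l := by nlinarith
  have hNs : (s : ℝ) ≤ N := by
    have h2 : (s : ℝ) ≤ C * l * s := le_mul_of_one_le_left hs0'.le hClk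
    linarith
  have hNs' : s ≤ N := by exact_mod_cast hNs
  have hN0 : (0 : ℝ) < N := by linarith
  have hEn := num_en s N H hx0 hH hNs' hsq
  rw [← hx] at hEn
  have hEn0 : 0 ≤ En N H := by
    have h1 : 0 ≤ 4 * ((s : ℝ) + 1) * En N H := (sq_nonneg _).trans hsq
    by_contra hcon
    rw [not_le] at hcon
    have h2 : (4 * ((s : ℝ) + 1)) * En N H < 0 := mul_neg_of_pos_of_neg (by positivity) hcon
    linarith
  have hENN : En N H / (N : ℝ) ^ 2 ≤ 5 * x / N := by
    rw [div_le_div_iff₀ (by positivity) hN0]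
    calc En N H * N ≤ (5 * N * x) * N := mul_le_mul_of_nonneg_right hEn hN0.le
      _ = _ := by ring
  -- `Q`
  set Q : ℝ := 5200 * s * En N H / (N : ℝ) ^ 2 with hQ
  have hQ0 : 0 ≤ Q := by positivity
  have hQl : Q * (C * l) ≤ 26000 * x := by
    have h2 : Q = 5200 * s * (En N H / (N : ℝ) ^ 2) := by rw [hQ]; ring
    have h3 : Q ≤ 26000 * (s * x) / N := by
      rw [h2]
      calc 5200 * s * (En N H / (N : ℝ) ^ 2) ≤ 5200 * s * (5 * x / N) :=
            mul_le_mul_of_nonneg_left hENN (by positivity)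
        _ = _ := by ring
    calc Q * (C * l) ≤ 26000 * (s * x) / N * (C * l) :=
          mul_le_mul_of_nonneg_right h3 (by linarith)
      _ = 26000 * x * (C * l * s) / N := by ring
      _ ≤ 26000 * x := by
          rw [div_le_iff₀ hN0]
          exact mul_le_mul_of_nonneg_left hNlow.le (by positivity)
  -- the parameters
  set M : ℕ := ⌊x / 4000⌋₊ with hM
  have hM1 : (M : ℝ) ≤ x / 4000 := Nat.floor_le (by positivity)
  have hM2 : x / 4000 < M + 1 := Nat.lt_floor_add_one _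
  have hM240 : 240 ≤ M := by
    have : (240 : ℝ) ≤ M := by linarith
    exact_mod_cast this
  obtain ⟨c, hc⟩ : ∃ c : ℝ,
      c = ((2 + Nat.clog 2 M : ℕ) : ℝ) := ⟨_, rfl⟩
  have hc2 : 2 ≤ c := by
    rw [hc]
    exact_mod_cast Nat.le_add_right 2 _
  have hcost : c ≤ 3 * l := by
    have h1 := num_cost5 (x := x) (by rw [← hl]; exact hl8) (M := M) (by linarith) (by omega)
    rw [← hc, ← hl] at h1
    exact h1
  have hQc : Q / η * c ≤ x / 96000 := by
    have h1 : Q / η * c ≤ Q / η * (3 * l) :=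
      mul_le_mul_of_nonneg_left hcost (by positivity)
    have h2 : Q / η * (3 * l) * (C * η) = 3 * (Q * (C * l)) := by
      field_simp
    rw [hCη] at h2
    linarith
  refine ⟨M, Nat.clog 2 M, hM240, Nat.le_pow_clog one_lt_two _, ?_, ?_, ?_, ?_, ?_⟩
  · -- `3 M ≤ clog2 N`
    have h1 : N ≤ 2 ^ Nat.clog 2 N := Nat.le_pow_clog one_lt_two N
    have h2 : Real.log N ≤ (Nat.clog 2 N : ℝ) * Real.log 2 := by
      rw [← Real.log_pow]
      refine Real.log_le_log hN0 ?_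
      exact_mod_cast h1
    have h3 : x ≤ Real.log N := Real.log_le_log hs0' hNs
    have h4 : Real.log 2 ≤ 1 := by
      have := Real.log_le_sub_one_of_pos (show (0 : ℝ) < 2 by norm_num)
      linarith
    have h5 : (Nat.clog 2 N : ℝ) * Real.log 2 ≤ (Nat.clog 2 N : ℝ) * 1 :=
      mul_le_mul_of_nonneg_left h4 (Nat.cast_nonneg _)
    have h6 : 3 * (M : ℝ) ≤ (Nat.clog 2 N : ℝ) := by linarith
    exact_mod_cast h6
  · -- `40 En < (N / 2 ^ (3 M)) ^ 2`
    have h1 : ((2 : ℝ) ^ (3 * M)) ^ 2 ≤ Real.exp (x / 500) := by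
      have h2 : ((2 : ℝ) ^ (3 * M)) ^ 2 = 4 ^ (3 * M) := by
        rw [← pow_mul, mul_comm, pow_mul]
        norm_num
      have h3 : (4 : ℝ) ≤ Real.exp 2 := by
        have := Real.quadratic_le_exp_of_nonneg (show (0 : ℝ) ≤ 2 by norm_num)
        linarith
      rw [h2]
      calc (4 : ℝ) ^ (3 * M) ≤ Real.exp 2 ^ (3 * M) := pow_le_pow_left₀ (by norm_num) h3 _
        _ = Real.exp (((3 * M : ℕ) : ℝ) * 2) := by rw [← Real.exp_nat_mul]
        _ ≤ Real.exp (x / 500) := Real.exp_le_exp.2 (by push_cast; linarith)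
    have h2 : 200 * x * Real.exp (x / 500) < s := by
      have h3 : Real.exp (x / 500) ≤ Real.exp (x / 2) := Real.exp_le_exp.2 (by linarith)
      have h4 : 200 * x < Real.exp (x / 2) := by
        have := Real.quadratic_le_exp_of_nonneg (show 0 ≤ x / 2 by positivity)
        nlinarith
      have h5 : Real.exp (x / 2) * Real.exp (x / 2) = s := by
        rw [← Real.exp_add, add_halves, hexpx]
      rw [← h5]
      have h6 : 0 < Real.exp (x / 500) := Real.exp_pos _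
      calc 200 * x * Real.exp (x / 500) < Real.exp (x / 2) * Real.exp (x / 500) :=
            mul_lt_mul_of_pos_right h4 h6
        _ ≤ _ := mul_le_mul_of_nonneg_left h3 (Real.exp_pos _).le
    rw [div_pow, lt_div_iff₀ (by positivity)]
    calc 40 * En N H * ((2 : ℝ) ^ (3 * M)) ^ 2 ≤ 40 * (5 * N * x) * Real.exp (x / 500) :=
          mul_le_mul (by linarith) h1 (by positivity) (by positivity)
      _ = (200 * x * Real.exp (x / 500)) * N := by ring
      _ < s * N := mul_lt_mul_of_pos_right h2 hN0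
      _ ≤ N * N := mul_le_mul_of_nonneg_right hNs hN0.le
      _ = (N : ℝ) ^ 2 := by ring
  · -- the cost
    rw [← hη, ← hc]
    refine hQc.trans ?_
    linarith
  · -- `8 Q ≤ 2 ^ M`
    have h1 : (M : ℝ) < 2 ^ M := by exact_mod_cast Nat.lt_two_pow_self
    have h2 : Q ≤ Q / η := by
      rw [le_div_iff₀ hη0]
      exact mul_le_of_le_one_right hQ0 hη1
    have h3 : Q / η * 2 ≤ Q / η * c := mul_le_mul_of_nonneg_left hc2 (by positivity)
    linarith
  · have h1 : 12 * En N H / (N : ℝ) ^ 2 = 12 * (En N H / (N : ℝ) ^ 2) := by ring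
    rw [h1]
    refine num_last s M H (En N H / (N : ℝ) ^ 2) x y rfl (by linarith) (by linarith) hy1 hyx
      hly hM240 (by linarith) hH ?_
    have h2 : 5 * x / N ≤ 1 / 1200 := by
      rw [div_le_div_iff₀ hN0 (by norm_num)]
      linarith
    linarith

end Pool.Agent.Ppr5
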