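import Pool.Agent.Ppr5.Defs
import Pool.Agent.Ppr2.NrmC

/-!
# The norm of the form
-/

namespace Pool.Agent.Ppr5

open PowerSeries Pool.Agent.Ppr Pool.Agent.Ppr2 Pool.Agent.Ppr4

private theorem lin_NrmG {r : ℝ} (hr : 0 ≤ r) (M : ℕ) (V : (ℕ → Bool) → PowerSeries ℝ)
    (hV : ∀ v, nrmr r M (V v) ≤ 31 / 30) (a v : ℕ → Bool) :
    nrmr r M (V a + V v) ≤ 31 / 15 := by
  have h1 := nrmr_add_le hr M (V a) (V v)
  have h2 := hV a
  have h3 := hV v
  linarith

theorem itF_nrm {r : ℝ} (hr : 0 ≤ r) (M : ℕ) (V : (ℕ → Bool) → PowerSeries ℝ)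
    (hV : ∀ v, nrmr r M (V v) ≤ 31 / 30) (A r1 r2 : ℕ → Bool) (d : Dat) (i : ℕ)
    (z : ℕ → Bool) :
    4 * nrmr r M (itF V A r1 r2 d i z) ≤ 5 ^ (2 + i) := by
  induction i generalizing z with
  | zero =>
    have h1 := nrmr_mul_le hr M (V r1 + V (app d.s1 z)) (V r2 + V (app d.s2 z))
    have h2 := lin_NrmG hr M V hV r1 (app d.s1 z)
    have h3 := lin_NrmG hr M V hV r2 (app d.s2 z)
    have h4 := mul_le_mul h2 h3 (nrmr_nonneg hr M _) (by norm_num)
    have h5 : nrmr r M (itF V A r1 r2 d 0 z) ≤ 31 / 15 * (31 / 15) := h1.trans h4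
    norm_num at h5 ⊢
    linarith
  | succ i ih =>
    have h1 : ∀ c, nrmr r M ((V (sh^[i] A) + V (cons c z)) * itF V A r1 r2 d i (cons c z)) ≤
        31 / 15 * nrmr r M (itF V A r1 r2 d i (cons c z)) := fun c =>
      (nrmr_mul_le hr M _ _).trans
        (mul_le_mul_of_nonneg_right (lin_NrmG hr M V hV _ _) (nrmr_nonneg hr M _))
    have h2 : nrmr r M (itF V A r1 r2 d (i + 1) z) ≤
        31 / 15 * nrmr r M (itF V A r1 r2 d i (cons true z)) +
          31 / 15 * nrmr r M (itF V A r1 r2 d i (cons false z)) :=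
      (nrmr_add_le hr M _ _).trans (add_le_add (h1 true) (h1 false))
    have h3 := ih (cons true z)
    have h4 := ih (cons false z)
    have h5 : (5 : ℝ) ^ (2 + (i + 1)) = 5 * 5 ^ (2 + i) := by
      rw [← add_assoc, pow_succ]
      ring
    have h6 : (0 : ℝ) < 5 ^ (2 + i) := by positivity
    rw [h5]
    linarith

theorem GG_nrm {r : ℝ} (hr : 0 ≤ r) (M : ℕ) (V : (ℕ → Bool) → PowerSeries ℝ)
    (hV : ∀ v, nrmr r M (V v) ≤ 31 / 30) (A r1 r2 : ℕ → Bool) (d : Dat) (K : ℕ)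
    (u u' : ℕ → Bool) :
    nrmr r M (GG V A r1 r2 d K u u') ≤ 5 ^ (2 + K) := by
  have h1 := itF_nrm hr M V hV A r1 r2 d K (cons true u)
  have h2 := itF_nrm hr M V hV A r1 r2 d K (cons false u)
  have h3 := itF_nrm hr M V hV A r1 r2 d K (cons true u')
  have h4 := itF_nrm hr M V hV A r1 r2 d K (cons false u')
  have h5 := nrmr_sub_le hr M
    (itF V A r1 r2 d K (cons true u) + itF V A r1 r2 d K (cons false u))
    (itF V A r1 r2 d K (cons true u') + itF V A r1 r2 d K (cons false u'))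
  have h6 := nrmr_add_le hr M (itF V A r1 r2 d K (cons true u))
    (itF V A r1 r2 d K (cons false u))
  have h7 := nrmr_add_le hr M (itF V A r1 r2 d K (cons true u'))
    (itF V A r1 r2 d K (cons false u'))
  have h8 : nrmr r M (GG V A r1 r2 d K u u') ≤ _ := h5
  linarith

end Pool.Agent.Ppr5
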