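import Pool.Agent.Ppr5.Defs
import Pool.Agent.Ppr4.OrdA

/-!
# The order at `w'`
-/

namespace Pool.Agent.Ppr5

open PowerSeries Pool.Agent.Ppr Pool.Agent.Ppr2 Pool.Agent.Ppr4

private theorem lin_Ord (A M : ℕ) (a : ℕ → Bool) :
    (fun v => X ^ A * (YR a + YR v)) ∈ Av A M := by
  have h1 := av_poly (A := A) (M := M) (e := 1) Polynomial.X Polynomial.natDegree_X_le
  have h2 : (fun v : ℕ → Bool => (X : PowerSeries ℝ) ^ A * (YR a + YR v)) =
      (fun _ : ℕ → Bool => (X : PowerSeries ℝ) ^ A * YR a) +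
        fun v => X ^ (A * 1) * Polynomial.aeval (YR v) (Polynomial.X : Polynomial ℝ) := by
    funext v
    rw [Pi.add_apply, mul_one, Polynomial.aeval_X, mul_add]
  rw [h2]
  exact Submodule.add_mem _ (av_const _) h1

private theorem fst_Ord {M : ℕ} (a : ℕ → Bool) {s : List Bool} (hs : s ≠ []) :
    (fun z => YR a + YR (app s z)) ∈ Av 1 M :=
  Submodule.add_mem _ (av_const _) (av_app hs)

theorem itF_av (M : ℕ) (A r1 r2 : ℕ → Bool) (d : Dat) (h1 : d.s1 ≠ []) (h2 : d.s2 ≠ [])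
    (i : ℕ) :
    (fun z => X ^ al i * itF YR A r1 r2 d i z) ∈ Av (2 ^ (i + 1) - 1) M := by
  induction i with
  | zero =>
    have h3 : (fun z => X ^ al 0 * itF YR A r1 r2 d 0 z) = F0 YR r1 r2 d := by
      funext z
      simp [al, itF]
    have h4 : 2 ^ (0 + 1) - 1 = 1 := by norm_num
    rw [h3, h4]
    exact av_mul (fst_Ord r1 h1) (fst_Ord r2 h2)
  | succ i ih =>
    have h3 := av_avg (av_mul (lin_Ord (2 ^ (i + 1) - 1) M (sh^[i] A)) ih)
    have h4 : 2 * (2 ^ (i + 1) - 1) + 1 = 2 ^ (i + 1 + 1) - 1 := by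
      have h5 : 0 < 2 ^ (i + 1) := Nat.two_pow_pos _
      have h6 : 2 ^ (i + 1 + 1) = 2 * 2 ^ (i + 1) := by rw [pow_succ _ (i + 1), mul_comm]
      omega
    rw [h4] at h3
    refine (congrArg (· ∈ Av (2 ^ (i + 1 + 1) - 1) M) ?_).mp h3
    funext z
    have h5 : al (i + 1) = al i + (2 ^ (i + 1) - 1) := by
      simp only [al]
      rw [Finset.sum_range_succ]
    rw [h5, pow_add]
    simp only [itF, stp, Pi.mul_apply]
    ring

theorem al_eq (i : ℕ) : al i + i + 2 = 2 ^ (i + 1) := by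
  induction i with
  | zero => simp [al]
  | succ i ih =>
    have h5 : al (i + 1) = al i + (2 ^ (i + 1) - 1) := by
      simp only [al]
      rw [Finset.sum_range_succ]
    have h6 : 2 ^ (i + 1 + 1) = 2 * 2 ^ (i + 1) := by rw [pow_succ _ (i + 1), mul_comm]
    have h7 : 0 < 2 ^ (i + 1) := Nat.two_pow_pos _
    omega

theorem GG_ord0 (A r1 r2 : ℕ → Bool) (d : Dat) (h1 : d.s1 ≠ []) (h2 : d.s2 ≠ []) (K : ℕ)
    (u u' : ℕ → Bool) : X ^ 2 ^ K ∣ GG YR A r1 r2 d K u u' := by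
  have hN : al K + 2 ^ K ≤ 2 ^ (K + 2) - 1 := by
    have h3 := al_eq K
    have h4 : 2 ^ (K + 1) = 2 * 2 ^ K := by rw [pow_succ, mul_comm]
    have h5 : 2 ^ (K + 2) = 2 * 2 ^ (K + 1) := by rw [pow_succ _ (K + 1), mul_comm]
    have h6 : 0 < 2 ^ K := Nat.two_pow_pos _
    omega
  have h3 := av_avg (itF_av (2 ^ (K + 2) - 1) A r1 r2 d h1 h2 K)
  have h4 : 2 ^ (K + 2) - 1 ≤ 2 * (2 ^ (K + 1) - 1) + 1 := by
    have h5 : 0 < 2 ^ (K + 1) := Nat.two_pow_pos _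
    have h6 : 2 ^ (K + 2) = 2 * 2 ^ (K + 1) := by rw [pow_succ _ (K + 1), mul_comm]
    omega
  have h5 := av_indep h3 h4 u u'
  have h6 : (X : PowerSeries ℝ) ^ al K * X ^ 2 ^ K ∣ X ^ al K * GG YR A r1 r2 d K u u' := by
    rw [← pow_add]
    refine (pow_dvd_pow X hN).trans (h5.trans (dvd_of_eq ?_))
    simp only [GG]
    ring
  exact (mul_dvd_mul_iff_left (pow_ne_zero _ X_ne_zero)).1 h6

end Pool.Agent.Ppr5
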