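import Pool.Agent.Ppr5.ValA
import Pool.Agent.Ppr4.Eqv

/-!
# The values at `w0`, part B: the steps

If the image of `z` agrees with the image of the shifted reference word for `k` letters then the
normalized inner form is close to its value, the error is `≤ 3 / 10 + 12 ρ^(k+1)`, `ρ = 3 r`. One
step: the right letter gives a factor `1 + O(ρ^(k+1))`, and the agreement is one letter longer;
the wrong letter gives a factor `O(ρ^(k+1))`.
-/

namespace Pool.Agent.Ppr5

open PowerSeries Pool.Agent.Ppr Pool.Agent.Ppr2 Pool.Agent.Ppr4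

variable {m : ℕ} {ψ : (Fin m → Bool) → Bool}

private theorem two_ValB (a b : Bool) : |((sg a : ℤ) : ℝ) + ((sg b : ℤ) : ℝ)| ≤ 2 := by
  cases a <;> cases b <;> simp [sg] <;> norm_num

theorem NN_le (d : Dat) (z : ℕ → Bool) : |NN ψ d z| ≤ 4 := by
  unfold NN
  rw [abs_mul]
  have h := mul_le_mul (two_ValB d.e1 (img ψ (app d.s1 z) 0))
    (two_ValB d.e2 (img ψ (app d.s2 z) 0)) (abs_nonneg _) (by norm_num)
  linarith

private theorem lin_ValB {r : ℝ} (hr : 0 ≤ r) (hr2 : r ≤ 1 / 64) (M : ℕ) (a b : ℕ → Bool)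
    (e : Bool) (ha : img ψ a 0 = e) :
    nrmr r M ((V0 ψ a + V0 ψ b) -
      C (((sg e : ℤ) : ℝ) + ((sg (img ψ b 0) : ℤ) : ℝ))) ≤ 1 / 15 := by
  have h1 := YR_close hr hr2 M (fun k => img ψ a k)
  have h2 := YR_close hr hr2 M (fun k => img ψ b k)
  have h3 : (V0 ψ a + V0 ψ b) - C (((sg e : ℤ) : ℝ) + ((sg (img ψ b 0) : ℤ) : ℝ)) =
      (YR (fun k => img ψ a k) - C ((sg (img ψ a 0) : ℤ) : ℝ)) +
        (YR (fun k => img ψ b k) - C ((sg (img ψ b 0) : ℤ) : ℝ)) := by
    rw [ha, map_add]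
    unfold V0
    ring
  rw [h3]
  have h4 := nrmr_add_le hr M (YR (fun k => img ψ a k) - C ((sg (img ψ a 0) : ℤ) : ℝ))
    (YR (fun k => img ψ b k) - C ((sg (img ψ b 0) : ℤ) : ℝ))
  have h5 : nrmr r M (YR (fun k => img ψ a k) - C ((sg (img ψ a 0) : ℤ) : ℝ)) ≤ 1 / 30 := h1
  have h6 : nrmr r M (YR (fun k => img ψ b k) - C ((sg (img ψ b 0) : ℤ) : ℝ)) ≤ 1 / 30 := h2
  linarith

theorem F0_near {r : ℝ} (hr : 0 ≤ r) (hr2 : r ≤ 1 / 64) (M : ℕ) (d : Dat)
    {r1 r2 : ℕ → Bool} (h1 : img ψ r1 0 = d.e1) (h2 : img ψ r2 0 = d.e2) (z : ℕ → Bool) :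
    nrmr r M (F0 (V0 ψ) r1 r2 d z - C (NN ψ d z)) ≤ 3 / 10 := by
  obtain ⟨P, hP⟩ : ∃ P, P = V0 ψ r1 + V0 ψ (app d.s1 z) := ⟨_, rfl⟩
  obtain ⟨Q, hQ⟩ : ∃ Q, Q = V0 ψ r2 + V0 ψ (app d.s2 z) := ⟨_, rfl⟩
  obtain ⟨a, ha⟩ : ∃ a : ℝ, a = ((sg d.e1 : ℤ) : ℝ) + ((sg (img ψ (app d.s1 z) 0) : ℤ) : ℝ) :=
    ⟨_, rfl⟩
  obtain ⟨b, hb⟩ : ∃ b : ℝ, b = ((sg d.e2 : ℤ) : ℝ) + ((sg (img ψ (app d.s2 z) 0) : ℤ) : ℝ) :=
    ⟨_, rfl⟩
  have n1 : nrmr r M (P - C a) ≤ 1 / 15 := by
    rw [hP, ha]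
    exact lin_ValB hr hr2 M r1 (app d.s1 z) d.e1 h1
  have n2 : nrmr r M (Q - C b) ≤ 1 / 15 := by
    rw [hQ, hb]
    exact lin_ValB hr hr2 M r2 (app d.s2 z) d.e2 h2
  have ha2 : |a| ≤ 2 := by
    rw [ha]
    exact two_ValB _ _
  have hb2 : |b| ≤ 2 := by
    rw [hb]
    exact two_ValB _ _
  have h3 : F0 (V0 ψ) r1 r2 d z - C (NN ψ d z) =
      C a * (Q - C b) + C b * (P - C a) + (P - C a) * (Q - C b) := by
    have h4 : F0 (V0 ψ) r1 r2 d z = P * Q := by
      rw [hP, hQ]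
      rfl
    have h5 : NN ψ d z = a * b := by
      rw [ha, hb]
      rfl
    rw [h4, h5, map_mul]
    ring
  have p1 := nrmr_nonneg hr M (P - C a)
  have p2 := nrmr_nonneg hr M (Q - C b)
  have h6 : nrmr r M (F0 (V0 ψ) r1 r2 d z - C (NN ψ d z)) ≤
      |a| * nrmr r M (Q - C b) + |b| * nrmr r M (P - C a) +
        nrmr r M (P - C a) * nrmr r M (Q - C b) := by
    rw [h3]
    refine (nrmr_add_le hr M _ _).trans (add_le_add ?_ (nrmr_mul_le hr M _ _))
    refine (nrmr_add_le hr M _ _).trans ?_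
    rw [nrmr_C_mul, nrmr_C_mul]
  have e1 : |a| * nrmr r M (Q - C b) ≤ 2 * (1 / 15) := mul_le_mul ha2 n2 p2 (by norm_num)
  have e2 : |b| * nrmr r M (P - C a) ≤ 2 * (1 / 15) := mul_le_mul hb2 n1 p1 (by norm_num)
  have e3 : nrmr r M (P - C a) * nrmr r M (Q - C b) ≤ 1 / 15 * (1 / 15) :=
    mul_le_mul n1 n2 p2 (by norm_num)
  linarith

/-- the image letters of `A` are the target letters -/
theorem WW_near {r : ℝ} (hr : 0 ≤ r) (hr2 : 3 * r ≤ 1 / 100) {M : ℕ} (hM : 0 < M) (d : Dat)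
    {A r1 r2 : ℕ → Bool} (h1 : img ψ r1 0 = d.e1) (h2 : img ψ r2 0 = d.e2)
    {inv : ℕ → PowerSeries ℝ} (K : ℕ) (hA : ∀ i < K, img ψ A i = d.g i)
    (hinv : ∀ t < K, (2 * V0 ψ (sh^[t] A)) * inv t = 1)
    (hinvn : ∀ t < K, nrmr r M (inv t) ≤ 15 / 29) (i : ℕ) (hi : i ≤ K) :
    ∀ (z : ℕ → Bool) (k : ℕ), (∀ j < k, img ψ z j = img ψ (sh^[i] A) j) →
      nrmr r M (WW (V0 ψ) A r1 r2 d inv i z - C (NN ψ d (Hed.build ψ d.g i z))) ≤
        3 / 10 + 12 * (3 * r) ^ (k + 1) := by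
  have hr64 : r ≤ 1 / 64 := by linarith
  have hρ : (0 : ℝ) ≤ 3 * r := by positivity
  induction i with
  | zero =>
    intro z k _
    have e1 := F0_near hr hr64 M d h1 h2 z
    have e2 : 0 ≤ 12 * (3 * r) ^ (k + 1) := by positivity
    have e3 : nrmr r M (WW (V0 ψ) A r1 r2 d inv 0 z - C (NN ψ d (Hed.build ψ d.g 0 z))) ≤
        3 / 10 := e1
    linarith
  | succ i ih =>
    intro z k hk
    have ih' := ih (Nat.le_of_succ_le hi)
    have hiK : i < K := hi
    obtain ⟨x, hx⟩ : ∃ x : Bool, x = xor (d.g i) (Hed.key ψ z) := ⟨_, rfl⟩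
    obtain ⟨F, hF⟩ : ∃ F : (ℕ → Bool) → PowerSeries ℝ, F = WW (V0 ψ) A r1 r2 d inv i :=
      ⟨_, rfl⟩
    rw [← hF] at ih'
    -- the images of the two words
    have hgx : xor x (Hed.key ψ z) = d.g i := by
      rw [hx]
      cases d.g i <;> cases Hed.key ψ z <;> rfl
    have himg : (fun j => img ψ (cons x z) j) = cons (d.g i) fun j => img ψ z j := by
      rw [img_cons, hgx]
    have hshi : ∀ (t j : ℕ), img ψ (sh^[t] A) j = img ψ A (t + j) := by
      intro t
      induction t with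
      | zero => intro j; simp
      | succ t iht =>
        intro j
        rw [Function.iterate_succ_apply']
        have e1 : ∀ (w : ℕ → Bool) (j : ℕ), img ψ (sh w) j = img ψ w (j + 1) := by
          intro w j
          unfold img sh
          have e2 : (fun i : Fin m => w (j + 1 + i.1 + 1)) = fun i => w (j + 1 + 1 + i.1) := by
            funext i
            rw [show j + 1 + i.1 + 1 = j + 1 + 1 + i.1 by omega]
          rw [e2]
        rw [e1, iht]
        congr 1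
        omega
    have hag : ∀ j < k + 1, img ψ (cons x z) j = img ψ (sh^[i] A) j := by
      intro j hj
      have e1 := congrFun himg j
      cases j with
      | zero =>
        have e2 : img ψ (cons x z) 0 = d.g i := e1
        rw [e2, hshi, Nat.add_zero, hA i hiK]
      | succ j =>
        have e2 : img ψ (cons x z) (j + 1) = img ψ z j := e1
        rw [e2, hk j (Nat.lt_of_succ_lt_succ hj), hshi, hshi]
        congr 1
        omega
    -- the difference of the two values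
    have hD : nrmr r M (V0 ψ (cons x z) - V0 ψ (sh^[i] A)) ≤ 31 / 15 * (3 * r) ^ (k + 1) :=
      YR_dif hr hr64 hM (k + 1) _ _ hag
    obtain ⟨D, hDd⟩ : ∃ D, D = V0 ψ (cons x z) - V0 ψ (sh^[i] A) := ⟨_, rfl⟩
    rw [← hDd] at hD
    have hneg : V0 ψ (cons (!x) z) = -V0 ψ (cons x z) := V0_cons_not x z
    have hiv := hinv i hiK
    have hivn := hinvn i hiK
    have hright : (V0 ψ (sh^[i] A) + V0 ψ (cons x z)) * inv i = 1 + D * inv i := by
      rw [hDd]
      linear_combination hiv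
    have hwrong : (V0 ψ (sh^[i] A) + V0 ψ (cons (!x) z)) * inv i = -(D * inv i) := by
      rw [hDd, hneg]
      ring
    have hη : nrmr r M (D * inv i) ≤ 31 / 29 * (3 * r) ^ (k + 1) := by
      refine (nrmr_mul_le hr M _ _).trans ?_
      have e1 := mul_le_mul hD hivn (nrmr_nonneg hr M _) (by positivity)
      have e2 : 31 / 15 * (3 * r) ^ (k + 1) * (15 / 29) = 31 / 29 * (3 * r) ^ (k + 1) := by ring
      rw [e2] at e1
      exact e1
    -- the sum
    have hsum : WW (V0 ψ) A r1 r2 d inv (i + 1) z =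
        F (cons x z) + D * inv i * F (cons x z) - D * inv i * F (cons (!x) z) := by
      have e1 : WW (V0 ψ) A r1 r2 d inv (i + 1) z =
          (V0 ψ (sh^[i] A) + V0 ψ (cons x z)) * inv i * F (cons x z) +
            (V0 ψ (sh^[i] A) + V0 ψ (cons (!x) z)) * inv i * F (cons (!x) z) := by
        rw [hF]
        cases x
        · exact add_comm _ _
        · rfl
      rw [e1, hright, hwrong]
      ring
    have hbuild : Hed.build ψ d.g (i + 1) z = Hed.build ψ d.g i (cons x z) := by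
      show Hed.build ψ d.g i (Hed.pre ψ (d.g i) z) = _
      rw [pre_cons, hx]
    rw [hsum, hbuild]
    -- the bounds
    have b0 : ∀ v, nrmr r M (F v) ≤ 9 / 2 := by
      intro v
      have e1 := ih' v 0 (fun j hj => absurd hj (Nat.not_lt_zero j))
      have e2 : F v = (F v - C (NN ψ d (Hed.build ψ d.g i v))) +
          C (NN ψ d (Hed.build ψ d.g i v)) := by ring
      have e3 : nrmr r M (F v) ≤ nrmr r M (F v - C (NN ψ d (Hed.build ψ d.g i v))) +
          nrmr r M (C (NN ψ d (Hed.build ψ d.g i v))) := by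
        conv_lhs => rw [e2]
        exact nrmr_add_le hr M _ _
      have e4 := nrmr_C_le r M (NN ψ d (Hed.build ψ d.g i v))
      have e5 : |NN ψ d (Hed.build ψ d.g i v)| ≤ 4 := NN_le d _
      have e6 : 12 * (3 * r) ^ (0 + 1) ≤ 12 / 100 := by
        rw [zero_add, pow_one]
        linarith
      linarith
    have b1 := ih' (cons x z) (k + 1) hag
    have p0 : 0 ≤ nrmr r M (D * inv i) := nrmr_nonneg hr M _
    have b2 : ∀ v, nrmr r M (D * inv i * F v) ≤ 31 / 29 * (3 * r) ^ (k + 1) * (9 / 2) :=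
      fun v => (nrmr_mul_le hr M _ _).trans
        (mul_le_mul hη (b0 v) (nrmr_nonneg hr M _) (by positivity))
    have e7 : F (cons x z) + D * inv i * F (cons x z) - D * inv i * F (cons (!x) z) -
        C (NN ψ d (Hed.build ψ d.g i (cons x z))) =
        (F (cons x z) - C (NN ψ d (Hed.build ψ d.g i (cons x z)))) +
          (D * inv i * F (cons x z) - D * inv i * F (cons (!x) z)) := by ring
    rw [e7]
    have e8 := nrmr_add_le hr M (F (cons x z) - C (NN ψ d (Hed.build ψ d.g i (cons x z))))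
      (D * inv i * F (cons x z) - D * inv i * F (cons (!x) z))
    have e9 := nrmr_sub_le hr M (D * inv i * F (cons x z)) (D * inv i * F (cons (!x) z))
    have e10 := b2 (cons x z)
    have e11 := b2 (cons (!x) z)
    have e12 : 12 * (3 * r) ^ (k + 1 + 1) ≤ 12 / 100 * (3 * r) ^ (k + 1) := by
      have e13 : (0 : ℝ) ≤ (3 * r) ^ (k + 1) := by positivity
      rw [pow_succ (3 * r) (k + 1)]
      nlinarith
    have e14 : (0 : ℝ) ≤ (3 * r) ^ (k + 1) := by positivity
    linarith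

end Pool.Agent.Ppr5
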