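import Pool.Agent.Ppr5.Gen
import Pool.Agent.Ppr5.Hom
import Pool.Agent.Ppr5.NrmG
import Pool.Agent.Ppr5.Ord
import Pool.Agent.Ppr5.ValB
import Pool.Agent.Ppr4.Dich
import Pool.Agent.Ppr4.DichB
import Pool.Agent.Ppr2.GapSepA

/-!
# The separator for a block code
-/

namespace Pool.Agent.Ppr5

open PowerSeries Pool.Agent.Ppr Pool.Agent.Ppr2 Pool.Agent.Ppr4

/-- the product of the inverses -/
private theorem prod_inv_SepA {r : ℝ} (hr : 0 ≤ r) (M : ℕ) (W inv : ℕ → PowerSeries ℝ) (K : ℕ)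
    (hinv : ∀ t < K, (2 * W t) * inv t = 1) (hn : ∀ t < K, nrmr r M (inv t) ≤ 15 / 29) :
    UU W K * ∏ t ∈ Finset.range K, inv t = 1 ∧
      nrmr r M (∏ t ∈ Finset.range K, inv t) ≤ 1 := by
  constructor
  · unfold UU
    rw [← Finset.prod_mul_distrib]
    exact Finset.prod_eq_one fun t ht => hinv t (Finset.mem_range.mp ht)
  · refine (nrmr_prod_le hr M _ _).trans ?_
    refine Finset.prod_le_one (fun t _ => nrmr_nonneg hr M _) fun t ht => ?_
    exact (hn t (Finset.mem_range.mp ht)).trans (by norm_num)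

variable {m : ℕ} {ψ : (Fin m → Bool) → Bool}

/-- the value of the form at `w0` is invertible, and the norm of the inverse is at most `1` -/
theorem GG_inv {r : ℝ} (hr : 0 ≤ r) (hr2 : 3 * r ≤ 1 / 100) {M : ℕ} (hM : 0 < M) (d : Dat)
    {A r1 r2 : ℕ → Bool} (h1 : img ψ r1 0 = d.e1) (h2 : img ψ r2 0 = d.e2) (K : ℕ)
    (hA : ∀ i < K, img ψ A i = d.g i) (u u' : ℕ → Bool) (hdel : 4 ≤ |del ψ d K u u'|) :
    ∃ g, GG (V0 ψ) A r1 r2 d K u u' * g = 1 ∧ nrmr r M g ≤ 1 := by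
  have hr64 : r ≤ 1 / 64 := by linarith
  have hex : ∀ t : ℕ, ∃ g, (2 * V0 ψ (sh^[t] A)) * g = 1 ∧ nrmr r M g ≤ 15 / 29 := by
    intro t
    obtain ⟨g, hg, hgn⟩ := add_inv hr hr64 hM (fun k => img ψ (sh^[t] A) k)
      (fun k => img ψ (sh^[t] A) k) rfl
    refine ⟨g, ?_, hgn⟩
    rw [two_mul]
    exact hg
  choose inv hinv hinvn using hex
  obtain ⟨hU, hUn⟩ := prod_inv_SepA hr M (fun t => V0 ψ (sh^[t] A)) inv K
    (fun t _ => hinv t) fun t _ => hinvn t
  obtain ⟨F, hF⟩ : ∃ F : (ℕ → Bool) → PowerSeries ℝ, F = WW (V0 ψ) A r1 r2 d inv K := ⟨_, rfl⟩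
  obtain ⟨W, hW⟩ : ∃ W, W = (F (cons true u) + F (cons false u)) -
    (F (cons true u') + F (cons false u')) := ⟨_, rfl⟩
  have hGW : GG (V0 ψ) A r1 r2 d K u u' = UU (fun t => V0 ψ (sh^[t] A)) K * W := by
    have e1 := itF_WW (V0 ψ) A r1 r2 d inv K (fun t _ => hinv t)
    rw [← hF] at e1
    rw [hW]
    unfold GG
    rw [e1, e1, e1, e1]
    ring
  have hnear : ∀ z, nrmr r M (F z - C (NN ψ d (Hed.build ψ d.g K z))) ≤ 21 / 50 := by
    intro z
    have e1 := WW_near hr hr2 hM d h1 h2 (inv := inv) K hA (fun t _ => hinv t)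
      (fun t _ => hinvn t) K le_rfl z 0 (fun j hj => absurd hj (Nat.not_lt_zero j))
    rw [← hF, zero_add, pow_one] at e1
    linarith
  obtain ⟨Δ, hΔ⟩ : ∃ Δ : ℝ, Δ = (NN ψ d (Hed.build ψ d.g K (cons true u)) +
      NN ψ d (Hed.build ψ d.g K (cons false u))) -
    (NN ψ d (Hed.build ψ d.g K (cons true u')) +
      NN ψ d (Hed.build ψ d.g K (cons false u'))) := ⟨_, rfl⟩
  have hΔ1 : Δ = ((sg d.e1 : ℤ) : ℝ) * ((sg d.e2 : ℤ) : ℝ) * del ψ d K u u' := by
    rw [hΔ, abs_NN, abs_NN, abs_NN, abs_NN]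
    unfold del
    ring
  have hΔ4 : 4 ≤ |Δ| := by
    rw [hΔ1, abs_mul, abs_mul, abs_sg_Dif, abs_sg_Dif, one_mul, one_mul]
    exact hdel
  have hWn : nrmr r M (W - C Δ) ≤ 42 / 25 := by
    have e1 : W - C Δ =
        ((F (cons true u) - C (NN ψ d (Hed.build ψ d.g K (cons true u)))) +
          (F (cons false u) - C (NN ψ d (Hed.build ψ d.g K (cons false u))))) -
        ((F (cons true u') - C (NN ψ d (Hed.build ψ d.g K (cons true u')))) +
          (F (cons false u') - C (NN ψ d (Hed.build ψ d.g K (cons false u'))))) := by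
      rw [hW, hΔ, map_sub, map_add, map_add]
      ring
    rw [e1]
    have e2 := nrmr_sub_le hr M
      ((F (cons true u) - C (NN ψ d (Hed.build ψ d.g K (cons true u)))) +
        (F (cons false u) - C (NN ψ d (Hed.build ψ d.g K (cons false u)))))
      ((F (cons true u') - C (NN ψ d (Hed.build ψ d.g K (cons true u')))) +
        (F (cons false u') - C (NN ψ d (Hed.build ψ d.g K (cons false u')))))
    have e3 := nrmr_add_le hr M
      (F (cons true u) - C (NN ψ d (Hed.build ψ d.g K (cons true u))))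
      (F (cons false u) - C (NN ψ d (Hed.build ψ d.g K (cons false u))))
    have e4 := nrmr_add_le hr M
      (F (cons true u') - C (NN ψ d (Hed.build ψ d.g K (cons true u'))))
      (F (cons false u') - C (NN ψ d (Hed.build ψ d.g K (cons false u'))))
    have e5 := hnear (cons true u)
    have e6 := hnear (cons false u)
    have e7 := hnear (cons true u')
    have e8 := hnear (cons false u')
    linarith
  have hc : constantCoeff W ≠ 0 := constr_ne_zero hr hM hWn (by linarith)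
  obtain ⟨gW, hgW⟩ := exists_inv hc
  have hgWn : nrmr r M gW ≤ 1 := by
    refine (nrmr_inv_le hr hWn (by linarith) hgW).trans ?_
    rw [div_le_iff₀ (by linarith)]
    linarith
  refine ⟨(∏ t ∈ Finset.range K, inv t) * gW, ?_, ?_⟩
  · rw [hGW]
    have hU' : UU (fun t => V0 ψ (sh^[t] A)) K * ∏ t ∈ Finset.range K, inv t = 1 := hU
    linear_combination W * gW * hU' + hgW
  · refine (nrmr_mul_le hr M _ _).trans ?_
    have e1 := mul_le_mul hUn hgWn (nrmr_nonneg hr M _) (by norm_num)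
    linarith

variable {ι : Type} {σ : ι → ι} {w0 w' : ι → Bool}

theorem sep_code {r : ℝ} (hr : 0 < r) (hr2 : 3 * r ≤ 1 / 100) {M M2 : ℕ} (hM : 0 < M)
    (hM2 : M + m ≤ M2) (hfull : full σ w' M2)
    (hψ : ∀ i, w0 i = xor (w' i) (ψ fun l : Fin m => w' (σ^[l.1 + 1] i)))
    (hnc : ∃ x y, ψ x ≠ ψ y) (hpm : (ψ fun _ => true) = ψ fun _ => false) (K : ℕ)
    (hK : M ≤ 2 ^ K) :
    ∃ g κ G, κ ≤ 2 + K ∧ IsSepr r σ M w0 w' g κ G := by
  obtain ⟨pt, hpt⟩ := exists_pt hfull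
  obtain ⟨d, u, u', hc0, hnn, h1, h2, hdel⟩ := exists_dat K (not_same hnc hpm K) (img ψ tt 0)
    (fun _ => 0)
  have hr64 : r ≤ 1 / 64 := by linarith
  obtain ⟨A, hA⟩ : ∃ A : ℕ → Bool, A = Hed.build ψ d.g K tt := ⟨_, rfl⟩
  have hA1 : ∀ i < K, img ψ A i = d.g i := fun i hi => by
    rw [hA]
    exact Hed.img_build_lt ψ d.g K tt i hi
  obtain ⟨r1, hr1⟩ : ∃ r1 : ℕ → Bool, r1 = Hed.pre ψ d.e1 tt := ⟨_, rfl⟩
  obtain ⟨r2, hr2'⟩ : ∃ r2 : ℕ → Bool, r2 = Hed.pre ψ d.e2 tt := ⟨_, rfl⟩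
  have hr11 : img ψ r1 0 = d.e1 := by
    rw [hr1]
    exact Hed.img_pre_zero ψ d.e1 tt
  have hr21 : img ψ r2 0 = d.e2 := by
    rw [hr2']
    exact Hed.img_pre_zero ψ d.e2 tt
  obtain ⟨G, hG⟩ : ∃ G, G = GG (fun v => (MvPolynomial.X (pt v) : MvPolynomial ι ℝ)) A r1 r2 d
      K u u' := ⟨_, rfl⟩
  have hX : ∀ (w : ι → Bool) (i : ι), eps σ w (MvPolynomial.X i) = YR (ow σ w i) := fun w i => by
    unfold eps
    exact MvPolynomial.aeval_X _ _
  have hmap : ∀ w : ι → Bool, eps σ w G =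
      GG (fun v => YR (ow σ w (pt v))) A r1 r2 d K u u' := by
    intro w
    have e1 := GG_map (eps σ w : MvPolynomial ι ℝ →+* PowerSeries ℝ)
      (fun v => (MvPolynomial.X (pt v) : MvPolynomial ι ℝ)) A r1 r2 d K u u'
    rw [hG]
    refine e1.trans ?_
    congr 1
    funext v
    exact hX w (pt v)
  have hhom : G.IsHomogeneous (2 + K) := by
    rw [hG]
    exact GG_hom pt A r1 r2 d K u u'
  have hvan : X ^ M ∣ eps σ w' G := by
    have e1 : X ^ M ∣ eps σ w' G - GG YR A r1 r2 d K u u' := by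
      rw [hmap]
      refine GG_congr (X ^ M) (fun v => ?_) A r1 r2 d K u u'
      have e2 := eps_pt' hpt v
      rw [hX] at e2
      exact (pow_dvd_pow X (by omega)).trans e2
    have e3 : X ^ M ∣ GG YR A r1 r2 d K u u' :=
      (pow_dvd_pow X hK).trans (GG_ord0 A r1 r2 d h1 h2 K u u')
    have e4 := dvd_add e1 e3
    rwa [sub_add_cancel] at e4
  have hnrm : ∀ w : ι → Bool, nrmr r M (eps σ w G) ≤ 5 ^ (2 + K) := by
    intro w
    rw [hmap]
    exact GG_nrm hr.le M _ (fun v => YR_bd hr.le hr64 M _) A r1 r2 d K u u'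
  have hdiv : X ^ M ∣ eps σ w0 G - GG (V0 ψ) A r1 r2 d K u u' := by
    rw [hmap]
    refine GG_congr (X ^ M) (fun v => ?_) A r1 r2 d K u u'
    have e2 := eps_pt0 hM2 hpt hψ v
    rw [hX] at e2
    exact e2
  obtain ⟨g0, hg0, hg0n⟩ := GG_inv hr.le hr2 hM d hr11 hr21 K hA1 u u' hdel
  have hc : constantCoeff (eps σ w0 G) ≠ 0 := by
    intro h0
    have e1 : constantCoeff (eps σ w0 G - GG (V0 ψ) A r1 r2 d K u u') = 0 := by
      obtain ⟨q, hq⟩ := hdiv
      rw [hq, map_mul, map_pow, constantCoeff_X, zero_pow hM.ne', zero_mul]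
    rw [map_sub, h0, zero_sub, neg_eq_zero] at e1
    have e2 := congrArg (constantCoeff : PowerSeries ℝ →+* ℝ) hg0
    rw [map_mul, e1, zero_mul, map_one] at e2
    exact zero_ne_one e2
  obtain ⟨inv, hinv⟩ := exists_inv hc
  refine ⟨2 + K, 2 + K, G, le_rfl, hhom, le_rfl, hvan, ⟨inv, hinv, ?_⟩, hnrm⟩
  have e1 : X ^ M ∣ inv - g0 := by
    have e2 : inv - g0 = -(inv * g0) * (eps σ w0 G - GG (V0 ψ) A r1 r2 d K u u') := by
      linear_combination g0 * hinv - inv * hg0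
    rw [e2]
    exact Dvd.dvd.mul_left hdiv _
  rw [nrmr_congr e1]
  exact hg0n.trans (one_le_pow₀ (by norm_num))

end Pool.Agent.Ppr5
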