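import Pool.Agent.Ppr5.Dif

/-!
# The values at `w0`, part A: the normalized inner form

`WW V A r1 r2 d inv i` is `itF V A r1 r2 d i` divided by the product of the `2 V (sh^[t] A)`,
`t < i`; `inv t` is the inverse of `2 V (sh^[t] A)`.
-/

namespace Pool.Agent.Ppr5

open PowerSeries Pool.Agent.Ppr Pool.Agent.Ppr2 Pool.Agent.Ppr4

section generic

variable {R : Type} [CommRing R]

/-- the normalized inner form -/
def WW (V : (ℕ → Bool) → R) (A r1 r2 : ℕ → Bool) (d : Dat) (inv : ℕ → R) :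
    ℕ → (ℕ → Bool) → R
  | 0 => F0 V r1 r2 d
  | i + 1 => stp (fun v => (V (sh^[i] A) + V v) * inv i) (WW V A r1 r2 d inv i)

theorem itF_WW (V : (ℕ → Bool) → R) (A r1 r2 : ℕ → Bool) (d : Dat) (inv : ℕ → R) (i : ℕ)
    (hinv : ∀ t < i, (2 * V (sh^[t] A)) * inv t = 1) (z : ℕ → Bool) :
    itF V A r1 r2 d i z = UU (fun t => V (sh^[t] A)) i * WW V A r1 r2 d inv i z := by
  induction i generalizing z with
  | zero => simp [itF, UU, WW]
  | succ i ih =>
    have h1 := ih (fun t ht => hinv t (Nat.lt_succ_of_lt ht))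
    have h2 := hinv i (Nat.lt_succ_self i)
    have h3 : UU (fun t => V (sh^[t] A)) (i + 1) =
        UU (fun t => V (sh^[t] A)) i * (2 * V (sh^[i] A)) := by
      unfold UU
      rw [Finset.prod_range_succ]
    simp only [itF, WW, stp, h1, h3]
    linear_combination (-(UU (fun t => V (sh^[t] A)) i *
      ((V (sh^[i] A) + V (cons true z)) * WW V A r1 r2 d inv i (cons true z) +
        (V (sh^[i] A) + V (cons false z)) * WW V A r1 r2 d inv i (cons false z)))) * h2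

end generic

variable {m : ℕ} {ψ : (Fin m → Bool) → Bool}

theorem img_cons (c : Bool) (z : ℕ → Bool) :
    (fun k => img ψ (cons c z) k) = cons (xor c (Hed.key ψ z)) fun k => img ψ z k := by
  funext k
  cases k with
  | zero =>
    unfold img cons Hed.key
    simp
  | succ k =>
    unfold img cons
    simp only [Nat.add_sub_cancel, Nat.succ_ne_zero, if_false]
    congr 2
    funext i
    have h1 : k + 1 + 1 + i.1 ≠ 0 := by omega
    have h2 : k + 1 + 1 + i.1 - 1 = k + 1 + i.1 := by omega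
    rw [if_neg h1, h2]

theorem V0_cons_not (x : Bool) (z : ℕ → Bool) :
    V0 ψ (cons (!x) z) = -V0 ψ (cons x z) := by
  have hsh : ∀ (c : Bool) (w : ℕ → Bool), sh (cons c w) = w := fun c w => by
    funext k
    simp [sh, cons]
  have hneg : ∀ (b : Bool) (w : ℕ → Bool), YR (cons (!b) w) = -YR (cons b w) := by
    intro b w
    have h1 : Y (cons (!b) w) = -Y (cons b w) :=
      Y_neg (by cases b <;> simp [cons]) (by rw [hsh, hsh])
    unfold YR
    rw [h1, map_neg]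
  unfold V0
  rw [img_cons, img_cons]
  have h : xor (!x) (Hed.key ψ z) = !(xor x (Hed.key ψ z)) := by
    cases x <;> cases Hed.key ψ z <;> rfl
  rw [h, hneg]

theorem abs_NN (d : Dat) (z : ℕ → Bool) :
    NN ψ d z = ((sg d.e1 : ℤ) : ℝ) * ((sg d.e2 : ℤ) : ℝ) * N0 ψ d z := by
  unfold NN N0
  have h1 : ((sg d.e1 : ℤ) : ℝ) * ((sg d.e1 : ℤ) : ℝ) = 1 := by
    cases d.e1 <;> simp [sg]
  have h2 : ((sg d.e2 : ℤ) : ℝ) * ((sg d.e2 : ℤ) : ℝ) = 1 := by
    cases d.e2 <;> simp [sg]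
  obtain ⟨a, ha⟩ : ∃ a : ℝ, a = (sg (img ψ (app d.s1 z) 0) : ℝ) := ⟨_, rfl⟩
  obtain ⟨b, hb⟩ : ∃ b : ℝ, b = (sg (img ψ (app d.s2 z) 0) : ℝ) := ⟨_, rfl⟩
  obtain ⟨e, he⟩ : ∃ e : ℝ, e = ((sg d.e1 : ℤ) : ℝ) := ⟨_, rfl⟩
  obtain ⟨f, hf⟩ : ∃ f : ℝ, f = ((sg d.e2 : ℤ) : ℝ) := ⟨_, rfl⟩
  rw [← ha, ← hb, ← he, ← hf]
  rw [← he] at h1
  rw [← hf] at h2
  linear_combination (-(a * f * 1 + a * b * f * f)) * h1 + (-(e * b + a * b)) * h2

end Pool.Agent.Ppr5
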